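import Pool.Agent.E8helper87.CN.Stm

/-!
# CN, piece UNI: every element prime to `lam` has exactly one associate congruent to `1` modulo `3`
-/

set_option autoImplicit false

namespace Pool.Agent.E8helper73.CN

open Pool.Agent.E8helper87.CN
open Pool.Agent.Y692.QS
open Pool.Agent.Y715.T.Gi (lam nr_lam)

/-- the six units -/
def US : Finset Ei := {1, -1, w, -w, 1 + w, -1 - w}

lemma card_US : US.card = 6 := by decide

lemma nr_US : ∀ u ∈ US, nr u = 1 := by decide

lemma epz_mem : ∀ x y : ZMod 3, x + y ≠ 0 → epz x y ∈ US := by decide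

lemma lam_dvd {z : Ei} (h : (3 : ℤ) ∣ nr z) : lam ∣ z := by
  have h1 : ((nr z : ℤ) : ZMod 3) = 0 := (ZMod.intCast_zmod_eq_zero_iff_dvd _ 3).2 h
  rw [nr_mod] at h1
  have h2 : ((z.re : ZMod 3) + z.im) = 0 := by
    generalize ((z.re : ZMod 3) + z.im) = t at h1
    revert t
    decide
  have h3 : ((z.re + z.im : ℤ) : ZMod 3) = 0 := by push_cast; exact h2
  obtain ⟨k, hk⟩ := (ZMod.intCast_zmod_eq_zero_iff_dvd _ 3).1 h3
  refine ⟨⟨2 * k - z.re, k - z.re⟩, ?_⟩
  have e1 : z.re + z.im = 3 * k := hk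
  ext
  · rw [mul_re]
    simp only [lam]
    linarith
  · rw [mul_im]
    simp only [lam]
    linarith

lemma nr_not {z : Ei} (h : ¬ lam ∣ z) : ¬ (3 : ℤ) ∣ nr z := fun h' => h (lam_dvd h')

lemma ep_mem {z : Ei} (h : ¬ (3 : ℤ) ∣ nr z) : ep z ∈ US := by
  apply epz_mem
  intro h'
  have h1 := nr_mod z
  rw [h'] at h1
  apply h
  refine (ZMod.intCast_zmod_eq_zero_iff_dvd _ 3).1 ?_
  rw [h1]
  decide

lemma ep_one' {z : Ei} (h : (3 : Ei) ∣ z - 1) : ep z = 1 := by
  rw [ep_per h]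
  exact ep_unit isUnit_one

lemma nr_one_mod {z : Ei} (h : (3 : Ei) ∣ z - 1) : ¬ (3 : ℤ) ∣ nr z := by
  intro h'
  have h1 : ((nr z : ℤ) : ZMod 3) = 0 := (ZMod.intCast_zmod_eq_zero_iff_dvd _ 3).2 h'
  rw [nr_mod] at h1
  have h2 : (((3 : ℤ) : Ei)) ∣ z - 1 := by exact_mod_cast h
  obtain ⟨h3, h4⟩ := int_dvd.1 h2
  have h5 : ((z.re : ℤ) : ZMod 3) = 1 := by
    have : ((z.re - 1 : ℤ) : ZMod 3) = 0 := (ZMod.intCast_zmod_eq_zero_iff_dvd _ 3).2 h3
    push_cast at this
    linear_combination this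
  have h6 : ((z.im : ℤ) : ZMod 3) = 0 := by
    refine (ZMod.intCast_zmod_eq_zero_iff_dvd _ 3).2 ?_
    have e0 : (1 : Ei).im = 0 := by decide
    have : (z - 1).im = z.im := by
      rw [QuadraticAlgebra.im_sub, e0, sub_zero]
    rwa [this] at h4
  rw [h5, h6] at h1
  revert h1
  decide

/-- **UNI** -/
theorem t_UNI : S_UNI := by
  intro X
  set T : Set Ei := {z : Ei | nr z ≤ X ∧ (3 : Ei) ∣ z - 1 ∧ z ≠ 0 ∧
    ∀ d : Ei, d ^ 3 ∣ z → IsUnit d} with hT
  have hunit : ∀ u ∈ US, star u * u = 1 := by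
    intro u hu
    rw [mul_comm, mul_star, nr_US u hu, Int.cast_one]
  have hne : ∀ u ∈ US, u ≠ 0 := by
    intro u hu h0
    have := nr_US u hu
    rw [h0] at this
    revert this
    decide
  have himg : {z : Ei | nr z ≤ X ∧ z ≠ 0 ∧ ¬ lam ∣ z ∧ ∀ d : Ei, d ^ 3 ∣ z → IsUnit d} =
      (fun p : Ei × Ei => p.1 * p.2) '' ((US : Set Ei) ×ˢ T) := by
    ext z
    constructor
    · rintro ⟨h1, h2, h3, h4⟩
      have h5 := nr_not h3
      obtain ⟨-, h6⟩ := ep_cases z h5
      obtain ⟨c, hc⟩ := ep_congr z h5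
      have h7 : ep z * (star (ep z) * z) = z := by
        rw [← mul_assoc, mul_comm (ep z), h6, one_mul]
      refine ⟨(ep z, star (ep z) * z), ⟨ep_mem h5, ?_, ?_, ?_, ?_⟩, h7⟩
      · show nr (star (ep z) * z) ≤ X
        rw [nr_mul, nr_star, nr_US _ (ep_mem h5), one_mul]
        exact h1
      · refine ⟨star (ep z) * c, ?_⟩
        show star (ep z) * z - 1 = 3 * (star (ep z) * c)
        have : star (ep z) * z - 1 = star (ep z) * (z - ep z) := by rw [mul_sub, h6]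
        rw [this, hc]
        ring
      · show star (ep z) * z ≠ 0
        intro h0
        rw [h0, mul_zero] at h7
        exact h2 h7.symm
      · intro d hd
        refine h4 d ?_
        rw [← h7]
        exact Dvd.dvd.mul_left hd _
    · rintro ⟨⟨u, D⟩, ⟨hu, h1, h2, h3, h4⟩, rfl⟩
      have hu' : u ∈ US := hu
      show nr (u * D) ≤ X ∧ u * D ≠ 0 ∧ ¬ lam ∣ u * D ∧ ∀ d : Ei, d ^ 3 ∣ u * D → IsUnit d
      have e : nr (u * D) = nr D := by rw [nr_mul, nr_US u hu', one_mul]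
      refine ⟨by rw [e]; exact h1, mul_ne_zero (hne u hu') h3, ?_, ?_⟩
      · rintro ⟨c, hc⟩
        apply nr_one_mod h2
        show (3 : ℤ) ∣ nr D
        rw [← e, hc, nr_mul, nr_lam]
        exact dvd_mul_right _ _
      · intro d hd
        refine h4 d ?_
        have : D = star u * (u * D) := by rw [← mul_assoc, hunit u hu', one_mul]
        show d ^ 3 ∣ D
        rw [this]
        exact Dvd.dvd.mul_left hd _
  have hinj : Set.InjOn (fun p : Ei × Ei => p.1 * p.2) ((US : Set Ei) ×ˢ T) := by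
    rintro ⟨u, D⟩ ⟨hu, hD⟩ ⟨v, E⟩ ⟨hv, hE⟩ h
    have h' : u * D = v * E := h
    have hu' : u ∈ US := hu
    have hv' : v ∈ US := hv
    have e1 : ep (u * D) = u := by
      rw [ep_mul, ep_one' hD.2.1, mul_one]
      exact ep_unit (isUnit_iff.2 (nr_US u hu'))
    have e2 : ep (v * E) = v := by
      rw [ep_mul, ep_one' hE.2.1, mul_one]
      exact ep_unit (isUnit_iff.2 (nr_US v hv'))
    have e3 : u = v := by rw [← e1, h', e2]
    subst e3
    have e4 : D = E := mul_left_cancel₀ (hne u hu') h'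
    rw [e4]
  rw [himg, hinj.ncard_image, Set.ncard_prod, Set.ncard_coe_finset, card_US]

end Pool.Agent.E8helper73.CN
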